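import Pool.Agent.helper99.HP.E8
import Pool.Agent.helper93.HP.E3
import Pool.Agent.helper63.HP.E7

/-!
Module ut:E8 of the project MP_5ae64c_pr: the exchange inequality (final form).
-/

open scoped BigOperators Topology
open Filter MeasureTheory

namespace Pool.Agent.helper20.HP

theorem exchange (θ A : ℝ) : ∃ C : ℝ, 0 < C ∧ ∀ (V : Type) [Fintype V] [DecidableEq V] (K : HW V)
    (h : ℕ), Par K θ h → ∀ (o : V) (Γ : List V), Γ.Nodup →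
    (Γ.length : ℝ) ≤ A * Nat.sqrt (Fintype.card V) →
    ∀ r g m0 U N0 N : ℕ, ((r : ℝ) + g) ≤ A * Nat.sqrt (Fintype.card V) → 1 ≤ g → 2 * h ≤ m0 →
    m0 ≤ (4 * h + U) * N0 →
    4 * (m0 + (4 * h + U) * N0 + 2 * h + 2 * U) ≤ Nat.sqrt (Fintype.card V) →
    ∀ ε : ℝ, 0 < ε → ε ≤ 1 →
    kap K o (2 * h) g U * PhiN K Γ N r ≤ kap K o (2 * h) g U * PhiN K Γ (N + U) (r + g)
      + C * (((4 * h + U : ℕ) : ℝ) * N0 + ε * Nat.sqrt (Fintype.card V)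
        + (Fintype.card V : ℝ) * ((4 * h + U : ℕ) : ℝ) * Real.exp (- (ε ^ 2 * N0 / (16 * CZ θ ^ 2)))) ∧
    kap K o (2 * h) g U * PhiN K Γ N (r + g) ≤ kap K o (2 * h) g U * PhiN K Γ N r
      + C * (((4 * h + U : ℕ) : ℝ) * N0 + ε * Nat.sqrt (Fintype.card V)
        + (Fintype.card V : ℝ) * ((4 * h + U : ℕ) : ℝ) * Real.exp (- (ε ^ 2 * N0 / (16 * CZ θ ^ 2)))) :=
  exchange_of
    (fun _V _ _ K o Γ b g r m0 M U S N h1 h2 => tri_g1 (K := K) o Γ b g r m0 M U S N h1 h2)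
    (fun _V _ _ K o Γ b g r m0 M U S N h1 h2 => tri_g2_le (K := K) o Γ b g r m0 M U S N h1 h2)
    (fun _V _ _ K o Γ b g r m0 M U S N h1 h2 => le_tri_g2 (K := K) o Γ b g r m0 M U S N h1 h2)
    (fun θ A => tri_compare θ A) θ A

end Pool.Agent.helper20.HP
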