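import Pool.Agent.helper35.HP.E0
import Pool.Agent.helper35.HP.E1
import Pool.Agent.helper26.HP.E2

/-!
Module ut:E8 of the project MP_5ae64c_pr: the exchange inequality. The statements of the modules E3
(triple sums) and E7 (comparison) are hypotheses of `exchange_of`.
-/

open scoped BigOperators Topology
open Filter MeasureTheory

namespace Pool.Agent.helper20.HP

section
variable {V : Type} [Fintype V] [DecidableEq V] {K : HW V} {θ : ℝ} {h : ℕ}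

theorem E8_win_len {α : Type} (b U m : ℕ) (L : List α) (hbm : b ≤ m) (hm : m + (b + U) ≤ L.length) :
    (win b U m L).length = 2 * b + U := by
  unfold win
  rw [List.length_take, List.length_drop]
  omega

theorem E8_lin (o : V) (Γ : List V) (S N : ℕ) (a b c : ℝ) (f g k : V → List V → List (Aut K) → ℝ) :
    kmL K o Γ S N (fun x ρ L => a * f x ρ L + b * g x ρ L + c * k x ρ L)
      = a * kmL K o Γ S N f + b * kmL K o Γ S N g + c * kmL K o Γ S N k := by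
  rw [← kmL_mul_left o Γ S N a f, ← kmL_mul_left o Γ S N b g, ← kmL_mul_left o Γ S N c k,
    ← kmL_add, ← kmL_add]

theorem E8_anti (o : V) (Γ : List V) (S S' N : ℕ) (hS : S ≤ S') {f : V → List V → List (Aut K) → ℝ}
    (h : ∀ x ρ L, 0 ≤ f x ρ L) : kmL K o Γ S' N f ≤ kmL K o Γ S N f := by
  unfold kmL
  refine Finset.sum_le_sum_of_subset_of_nonneg ?_ (fun t _ _ => E0_kmTL_nonneg o Γ t h)
  exact Finset.Ico_subset_Ico hS le_rfl

theorem E8_split (o : V) (Γ : List V) (S N : ℕ) {f : V → List V → List (Aut K) → ℝ}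
    (h : ∀ x ρ L, 0 ≤ f x ρ L) : kmL K o Γ 0 N f ≤ kmL K o Γ 0 S f + kmL K o Γ S N f := by
  rcases le_total S N with hSN | hNS
  · refine le_of_eq ?_
    unfold kmL
    exact (Finset.sum_Ico_consecutive _ (Nat.zero_le _) hSN).symm
  · have h1 : kmL K o Γ 0 N f ≤ kmL K o Γ 0 S f := by
      unfold kmL
      refine Finset.sum_le_sum_of_subset_of_nonneg ?_ (fun t _ _ => E0_kmTL_nonneg o Γ t h)
      exact Finset.Ico_subset_Ico le_rfl hNS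
    have h2 := kmL_nonneg (K := K) o Γ S N h
    linarith

/-- window averages of a nonnegative bounded function against the level indicator -/
theorem E8_core (hP : Par K θ h) (o : V) (Γ : List V) (hΓ : Γ.Nodup) (b U N0 m0 N : ℕ) (hb : 1 ≤ b)
    (hm0 : b ≤ m0) (f : List (Aut K) → ℝ) (C : ℝ) (hC : 0 < C) (hf0 : ∀ w, 0 ≤ f w)
    (hfC : ∀ w, w.length = 2 * b + U → f w ≤ C) (ε : ℝ) (hε : 0 < ε)
    (hκ : 0 ≤ EL K o (2 * b + U) f) (q S' : ℕ)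
    (hS' : m0 + (2 * b + U) * N0 + (b + U) ≤ S') :
    (EL K o (2 * b + U) f * (((2 * b + U : ℕ) : ℝ) * N0)) *
        kmL K o Γ S' N (fun x ρ L => ind (stL K o x ρ L = q))
      ≤ kmL K o Γ S' N (fun x ρ L => ind (stL K o x ρ L = q) *
          ∑ m ∈ Finset.Ioc m0 (m0 + (2 * b + U) * N0), f (win b U m L))
        + (ε * (((2 * b + U : ℕ) : ℝ) * N0)) *
          kmL K o Γ S' N (fun x ρ L => ind (stL K o x ρ L = q))
        + (EL K o (2 * b + U) f * (((2 * b + U : ℕ) : ℝ) * N0)) *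
          ((Fintype.card V : ℝ) * (2 * ((2 * b + U : ℕ) : ℝ) *
            Real.exp (- (ε ^ 2 * N0 / (16 * C ^ 2))))) ∧
    kmL K o Γ S' N (fun x ρ L => ind (stL K o x ρ L = q) *
          ∑ m ∈ Finset.Ioc m0 (m0 + (2 * b + U) * N0), f (win b U m L))
      ≤ (EL K o (2 * b + U) f * (((2 * b + U : ℕ) : ℝ) * N0)) *
        kmL K o Γ S' N (fun x ρ L => ind (stL K o x ρ L = q))
        + (ε * (((2 * b + U : ℕ) : ℝ) * N0)) *
          kmL K o Γ S' N (fun x ρ L => ind (stL K o x ρ L = q))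
        + (C * (((2 * b + U : ℕ) : ℝ) * N0)) *
          ((Fintype.card V : ℝ) * (2 * ((2 * b + U : ℕ) : ℝ) *
            Real.exp (- (ε ^ 2 * N0 / (16 * C ^ 2))))) := by
  set ℓ : ℕ := 2 * b + U with hℓ
  set κ : ℝ := EL K o ℓ f with hκd
  set M : ℝ := (ℓ : ℝ) * N0 with hM
  have hM0 : 0 ≤ M := by positivity
  set bad : V → List V → List (Aut K) → ℝ := fun _ _ L =>
    ind (ε * M < |∑ m ∈ Finset.Ioc m0 (m0 + ℓ * N0), (f (win b U m L) - κ)|) with hbad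
  set E : ℝ := (Fintype.card V : ℝ) * (2 * (ℓ : ℝ) * Real.exp (- (ε ^ 2 * N0 / (16 * C ^ 2)))) with hE
  have hbadE : kmL K o Γ S' N bad ≤ E := by
    refine (E8_anti o Γ _ S' N hS' (fun _ _ _ => ind_nonneg _)).trans ?_
    exact win_conc hP o Γ hΓ b U N0 m0 N hb hm0 f C hC
      (fun w hw => abs_le.2 ⟨by linarith [hf0 w], hfC w hw⟩) ε hε
  have hcardI : (((Finset.Ioc m0 (m0 + ℓ * N0)).card : ℕ) : ℝ) = M := by
    rw [Nat.card_Ioc, Nat.add_sub_cancel_left, hM]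
    push_cast
    ring
  have hsub : ∀ L : List (Aut K), ∑ m ∈ Finset.Ioc m0 (m0 + ℓ * N0), (f (win b U m L) - κ)
      = (∑ m ∈ Finset.Ioc m0 (m0 + ℓ * N0), f (win b U m L)) - κ * M := by
    intro L
    rw [Finset.sum_sub_distrib, Finset.sum_const, nsmul_eq_mul, hcardI, mul_comm κ M]
  have hs0 : ∀ L : List (Aut K), 0 ≤ ∑ m ∈ Finset.Ioc m0 (m0 + ℓ * N0), f (win b U m L) :=
    fun L => Finset.sum_nonneg (fun m _ => hf0 _)
  have hsC : ∀ L : List (Aut K), S' ≤ L.length →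
      ∑ m ∈ Finset.Ioc m0 (m0 + ℓ * N0), f (win b U m L) ≤ C * M := by
    intro L hL
    have h1 : ∑ m ∈ Finset.Ioc m0 (m0 + ℓ * N0), f (win b U m L)
        ≤ ∑ _m ∈ Finset.Ioc m0 (m0 + ℓ * N0), C := by
      refine Finset.sum_le_sum (fun m hm => ?_)
      rw [Finset.mem_Ioc] at hm
      exact hfC _ (E8_win_len b U m L (by omega) (by omega))
    rw [Finset.sum_const, nsmul_eq_mul, hcardI] at h1
    linarith
  have hκM : 0 ≤ κ * M := mul_nonneg hκ hM0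
  have hεM : 0 ≤ ε * M := mul_nonneg hε.le hM0
  have hCM : 0 ≤ C * M := mul_nonneg hC.le hM0
  constructor
  · have h1 : kmL K o Γ S' N (fun x ρ L => (κ * M) * ind (stL K o x ρ L = q))
        ≤ kmL K o Γ S' N (fun x ρ L => 1 * (ind (stL K o x ρ L = q) *
            ∑ m ∈ Finset.Ioc m0 (m0 + ℓ * N0), f (win b U m L))
          + (ε * M) * ind (stL K o x ρ L = q) + (κ * M) * bad x ρ L) := by
      refine kmL_mono o Γ S' N (fun i L _ _ _ => ?_)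
      have hi0 := ind_nonneg (stL K o (Γ.get i) (Γ.drop (i + 1)) L = q)
      have hi1 := ind_le_one (stL K o (Γ.get i) (Γ.drop (i + 1)) L = q)
      have hs := hs0 L
      by_cases hbd : ε * M < |∑ m ∈ Finset.Ioc m0 (m0 + ℓ * N0), (f (win b U m L) - κ)|
      · have h2 : bad (Γ.get i) (Γ.drop (i + 1)) L = 1 := by
          rw [hbad]
          simp only [ind, if_pos hbd]
        rw [h2]
        nlinarith [mul_nonneg hi0 hs, mul_nonneg hεM hi0]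
      · have h2 : bad (Γ.get i) (Γ.drop (i + 1)) L = 0 := by
          rw [hbad]
          simp only [ind, if_neg hbd]
        rw [h2]
        rw [not_lt, hsub] at hbd
        have h3 := (abs_le.1 hbd).1
        nlinarith [mul_nonneg hi0 (sub_nonneg.2 h3)]
    rw [kmL_mul_left, E8_lin] at h1
    have h2 : (κ * M) * kmL K o Γ S' N bad ≤ (κ * M) * E := mul_le_mul_of_nonneg_left hbadE hκM
    linarith
  · have h1 : kmL K o Γ S' N (fun x ρ L => ind (stL K o x ρ L = q) *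
            ∑ m ∈ Finset.Ioc m0 (m0 + ℓ * N0), f (win b U m L))
        ≤ kmL K o Γ S' N (fun x ρ L => (κ * M) * ind (stL K o x ρ L = q)
          + (ε * M) * ind (stL K o x ρ L = q) + (C * M) * bad x ρ L) := by
      refine kmL_mono o Γ S' N (fun i L hL _ _ => ?_)
      have hi0 := ind_nonneg (stL K o (Γ.get i) (Γ.drop (i + 1)) L = q)
      have hi1 := ind_le_one (stL K o (Γ.get i) (Γ.drop (i + 1)) L = q)
      have hs := hs0 L
      have hs2 := hsC L hL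
      by_cases hbd : ε * M < |∑ m ∈ Finset.Ioc m0 (m0 + ℓ * N0), (f (win b U m L) - κ)|
      · have h2 : bad (Γ.get i) (Γ.drop (i + 1)) L = 1 := by
          rw [hbad]
          simp only [ind, if_pos hbd]
        rw [h2]
        nlinarith [mul_nonneg hκM hi0, mul_nonneg hεM hi0, mul_nonneg hs (sub_nonneg.2 hi1)]
      · have h2 : bad (Γ.get i) (Γ.drop (i + 1)) L = 0 := by
          rw [hbad]
          simp only [ind, if_neg hbd]
        rw [h2]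
        rw [not_lt, hsub] at hbd
        have h3 := (abs_le.1 hbd).2
        nlinarith [mul_nonneg hi0 (sub_nonneg.2 h3)]
    rw [E8_lin] at h1
    have h2 : (C * M) * kmL K o Γ S' N bad ≤ (C * M) * E := mul_le_mul_of_nonneg_left hbadE hCM
    linarith

/-- statement of `tri_g1` (module E3) -/
def E8_TG1 : Prop := ∀ (V : Type) [Fintype V] [DecidableEq V] (K : HW V) (o : V) (Γ : List V)
    (b g r m0 M U S N : ℕ), b ≤ m0 → m0 + M + b + U ≤ S →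
    tri K o Γ m0 M U S N (g1 K o Γ b g r) = kmL K o Γ S N (fun x ρ L =>
      ind (stL K o x ρ L = r + 1) * ∑ m ∈ Finset.Ioc m0 (m0 + M), f1 K o b g U (win b U m L))

/-- statement of `tri_g2_le` (module E3) -/
def E8_TG2 : Prop := ∀ (V : Type) [Fintype V] [DecidableEq V] (K : HW V) (o : V) (Γ : List V)
    (b g r m0 M U S N : ℕ), b ≤ m0 → m0 + M + b + U ≤ S →
    tri K o Γ m0 M U S N (g2 K o Γ b g r) ≤ kmL K o Γ S (N + U) (fun x ρ L =>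
      ind (stL K o x ρ L = r + g + 1) * ∑ m ∈ Finset.Ioc m0 (m0 + M), f2 K o b g U (win b U m L))

/-- statement of `le_tri_g2` (module E3) -/
def E8_TG3 : Prop := ∀ (V : Type) [Fintype V] [DecidableEq V] (K : HW V) (o : V) (Γ : List V)
    (b g r m0 M U S N : ℕ), b ≤ m0 → m0 + M + b + U ≤ S →
    kmL K o Γ (S + U) N (fun x ρ L =>
      ind (stL K o x ρ L = r + g + 1) * ∑ m ∈ Finset.Ioc m0 (m0 + M), f2 K o b g U (win b U m L))
      ≤ tri K o Γ m0 M U S N (g2 K o Γ b g r)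

/-- statement of `tri_compare` (module E7) -/
def E8_TC : Prop := ∀ (θ A : ℝ), ∃ C : ℝ, 0 < C ∧ ∀ (V : Type) [Fintype V] [DecidableEq V]
    (K : HW V) (h : ℕ), Par K θ h → ∀ (o : V) (Γ : List V), Γ.Nodup →
    (Γ.length : ℝ) ≤ A * Nat.sqrt (Fintype.card V) →
    ∀ r g m0 M U S N : ℕ, (r : ℝ) ≤ A * Nat.sqrt (Fintype.card V) → 1 ≤ g → 2 * h ≤ m0 →
    m0 + M + 2 * h + U ≤ S → 4 * (m0 + M + U) ≤ Nat.sqrt (Fintype.card V) →
    |tri K o Γ m0 M U S N (g1 K o Γ (2 * h) g r) - tri K o Γ m0 M U S N (g2 K o Γ (2 * h) g r)|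
      ≤ C * (((m0 : ℝ) + M + 1) * (m0 + M + U + h))

/-- the real arithmetic of the exchange inequality -/
theorem E8_arith (κ Z C1 m L ε E Q0 Q1 a0 B0 B1 G1 G2 T1 T2 Pm c : ℝ) (hκ0 : 0 ≤ κ) (hκ : κ ≤ Z)
    (hZ : 1 ≤ Z) (hm : 0 < m) (hε : 0 < ε) (hE : 0 ≤ E)
    (_hB1 : 0 ≤ B1) (h1 : Q0 ≤ a0 + B0) (h2 : B0 ≤ Pm) (h3 : a0 ≤ 5 * m * Z)
    (h4 : (κ * m) * B0 ≤ G1 + (ε * m) * B0 + (κ * m) * (2 * E)) (h5 : G1 ≤ T1)
    (h6 : T1 ≤ T2 + C1 * (12 * m ^ 2)) (h7 : T2 ≤ G2)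
    (h8 : G2 ≤ (κ * m) * B1 + (ε * m) * B1 + (Z * m) * (2 * E)) (h9 : B1 ≤ Q1) (h10 : B1 ≤ Pm)
    (hC1 : 0 ≤ C1) (hPm : Pm ≤ c * L) (hc : 0 ≤ c) (hL : 0 ≤ L) :
    κ * Q0 ≤ κ * Q1 + (5 * Z ^ 2 + 12 * C1 + 2 * c + 4 * (Z + 1)) * (m + ε * L + E) := by
  refine le_of_mul_le_mul_left ?_ hm
  have hκm : 0 ≤ κ * m := mul_nonneg hκ0 hm.le
  have hεm : 0 ≤ ε * m := mul_nonneg hε.le hm.le
  have e1 : (κ * m) * Q0 ≤ (κ * m) * (a0 + B0) := mul_le_mul_of_nonneg_left h1 hκm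
  have e2 : (κ * m) * a0 ≤ (κ * m) * (5 * m * Z) := mul_le_mul_of_nonneg_left h3 hκm
  have e3 : (ε * m) * B0 ≤ (ε * m) * (c * L) := mul_le_mul_of_nonneg_left (h2.trans hPm) hεm
  have e4 : (ε * m) * B1 ≤ (ε * m) * (c * L) := mul_le_mul_of_nonneg_left (h10.trans hPm) hεm
  have e5 : (κ * m) * B1 ≤ (κ * m) * Q1 := mul_le_mul_of_nonneg_left h9 hκm
  have e6 : (κ * m) * (5 * m * Z) ≤ (Z * m) * (5 * m * Z) := by
    refine mul_le_mul_of_nonneg_right (mul_le_mul_of_nonneg_right hκ hm.le) (by positivity)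
  have e7 : (κ * m) * (2 * E) ≤ (Z * m) * (2 * E) :=
    mul_le_mul_of_nonneg_right (mul_le_mul_of_nonneg_right hκ hm.le) (by positivity)
  have hZ0 : 0 ≤ Z := by linarith
  have e8 : 0 ≤ m * ((5 * Z ^ 2 + 12 * C1 + 2 * c + 4 * (Z + 1)) * (m + ε * L + E))
      - (5 * Z ^ 2 * m ^ 2 + 12 * C1 * m ^ 2 + 2 * c * ε * L * m + 4 * Z * m * E) := by
    have f1 : 0 ≤ ε * L := mul_nonneg hε.le hL
    have f2 : 0 ≤ m * m := mul_nonneg hm.le hm.le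
    have f3 : 0 ≤ m * (ε * L) := mul_nonneg hm.le f1
    have f4 : 0 ≤ m * E := mul_nonneg hm.le hE
    have f5 : 0 ≤ (2 * c + 4 * (Z + 1)) * (m * m) := mul_nonneg (by positivity) f2
    have f6 : 0 ≤ (5 * Z ^ 2 + 12 * C1 + 4 * (Z + 1)) * (m * (ε * L)) := mul_nonneg (by positivity) f3
    have f7 : 0 ≤ (5 * Z ^ 2 + 12 * C1 + 2 * c + 4) * (m * E) := mul_nonneg (by positivity) f4
    have : m * ((5 * Z ^ 2 + 12 * C1 + 2 * c + 4 * (Z + 1)) * (m + ε * L + E))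
      - (5 * Z ^ 2 * m ^ 2 + 12 * C1 * m ^ 2 + 2 * c * ε * L * m + 4 * Z * m * E)
      = (2 * c + 4 * (Z + 1)) * (m * m) + (5 * Z ^ 2 + 12 * C1 + 4 * (Z + 1)) * (m * (ε * L))
        + (5 * Z ^ 2 + 12 * C1 + 2 * c + 4) * (m * E) := by ring
    rw [this]
    linarith
  nlinarith [e1, e2, e3, e4, e5, e6, e7, e8, h4, h5, h6, h7, h8]

theorem exchange_of (hTG1 : E8_TG1) (hTG2 : E8_TG2) (hTG3 : E8_TG3) (hTC : E8_TC) (θ A : ℝ) :
    ∃ C : ℝ, 0 < C ∧ ∀ (V : Type) [Fintype V] [DecidableEq V] (K : HW V)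
    (h : ℕ), Par K θ h → ∀ (o : V) (Γ : List V), Γ.Nodup →
    (Γ.length : ℝ) ≤ A * Nat.sqrt (Fintype.card V) →
    ∀ r g m0 U N0 N : ℕ, ((r : ℝ) + g) ≤ A * Nat.sqrt (Fintype.card V) → 1 ≤ g → 2 * h ≤ m0 →
    m0 ≤ (4 * h + U) * N0 →
    4 * (m0 + (4 * h + U) * N0 + 2 * h + 2 * U) ≤ Nat.sqrt (Fintype.card V) →
    ∀ ε : ℝ, 0 < ε → ε ≤ 1 →
    kap K o (2 * h) g U * PhiN K Γ N r ≤ kap K o (2 * h) g U * PhiN K Γ (N + U) (r + g)
      + C * (((4 * h + U : ℕ) : ℝ) * N0 + ε * Nat.sqrt (Fintype.card V)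
        + (Fintype.card V : ℝ) * ((4 * h + U : ℕ) : ℝ) * Real.exp (- (ε ^ 2 * N0 / (16 * CZ θ ^ 2)))) ∧
    kap K o (2 * h) g U * PhiN K Γ N (r + g) ≤ kap K o (2 * h) g U * PhiN K Γ N r
      + C * (((4 * h + U : ℕ) : ℝ) * N0 + ε * Nat.sqrt (Fintype.card V)
        + (Fintype.card V : ℝ) * ((4 * h + U : ℕ) : ℝ) * Real.exp (- (ε ^ 2 * N0 / (16 * CZ θ ^ 2)))) := by
  obtain ⟨C1, hC1, hcomp⟩ := hTC θ A
  have hCZ0 : 0 ≤ CZ θ := sq_nonneg _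
  refine ⟨5 * CZ θ ^ 2 + 12 * C1 + 2 * (|CP θ| * (1 + |A|)) + 4 * (CZ θ + 1), by positivity, ?_⟩
  intro V _ _ K h hP o Γ hΓ hΓA r g m0 U N0 N hrg hg hm0 hm0M hL ε hε hε1
  have hh := hP.h_pos
  have hθ := hP.one_le
  have hCZ1 : 1 ≤ CZ θ := by
    unfold CZ
    nlinarith
  set L : ℕ := Nat.sqrt (Fintype.card V) with hLd
  set ℓ : ℕ := 4 * h + U with hℓ
  have hN0 : 1 ≤ N0 := by
    rcases Nat.eq_zero_or_pos N0 with h0 | h0
    · rw [h0, Nat.mul_zero] at hm0M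
      omega
    · exact h0
  have hUM : U ≤ ℓ * N0 := by
    calc U ≤ ℓ := by omega
      _ ≤ ℓ * N0 := Nat.le_mul_of_pos_right _ hN0
  have hℓe : 2 * (2 * h) + U = ℓ := by omega
  have hUL : U ≤ L := by omega
  have hm : (0 : ℝ) < (ℓ : ℝ) * N0 := by
    have h1 : 0 < ℓ := by omega
    have h2 : (0 : ℝ) < ℓ := by exact_mod_cast h1
    have h3 : (0 : ℝ) < N0 := by exact_mod_cast hN0
    positivity
  have hL0 : (0 : ℝ) ≤ L := Nat.cast_nonneg _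
  have hκ0 : 0 ≤ kap K o (2 * h) g U := kap_nonneg K o (2 * h) g U
  have hκ : kap K o (2 * h) g U ≤ CZ θ := kap_le hP o (2 * h) g U hUL
  have hE0 : 0 ≤ (Fintype.card V : ℝ) * (ℓ : ℝ) * Real.exp (- (ε ^ 2 * N0 / (16 * CZ θ ^ 2))) := by
    positivity
  have hc0 : 0 ≤ |CP θ| * (1 + |A|) := by positivity
  -- the profile bounds
  have hPm : ∀ (N' q : ℕ), (q : ℝ) ≤ r + g → PhiN K Γ N' q ≤ (|CP θ| * (1 + |A|)) * L := by
    intro N' q hq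
    have h1 := phi_bound hP Γ hΓ N' q
    have h2 : (q : ℝ) ≤ |A| * L := (hq.trans hrg).trans
      (mul_le_mul_of_nonneg_right (le_abs_self A) hL0)
    have h3 : CP θ * ((L : ℝ) + q) ≤ |CP θ| * ((L : ℝ) + q) :=
      mul_le_mul_of_nonneg_right (le_abs_self _) (by positivity)
    have h4 : |CP θ| * ((L : ℝ) + q) ≤ |CP θ| * ((L : ℝ) + |A| * L) :=
      mul_le_mul_of_nonneg_left (by linarith) (abs_nonneg _)
    calc PhiN K Γ N' q ≤ CP θ * ((L : ℝ) + q) := h1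
      _ ≤ |CP θ| * ((L : ℝ) + |A| * L) := h3.trans h4
      _ = (|CP θ| * (1 + |A|)) * L := by ring
  have hsub : ∀ (S N' q : ℕ), kmL K o Γ S N' (fun x ρ L => ind (stL K o x ρ L = q + 1))
      ≤ PhiN K Γ N' q := by
    intro S N' q
    rw [PhiN_eq_kmL o Γ N' q]
    exact E8_anti o Γ 0 S N' (Nat.zero_le _) (fun _ _ _ => ind_nonneg _)
  have hspl : ∀ (S N' q : ℕ), PhiN K Γ N' q ≤ PhiN K Γ S q
      + kmL K o Γ S N' (fun x ρ L => ind (stL K o x ρ L = q + 1)) := by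
    intro S N' q
    rw [PhiN_eq_kmL o Γ N' q, PhiN_eq_kmL o Γ S q]
    exact E8_split o Γ S N' (fun _ _ _ => ind_nonneg _)
  have hm0' : (m0 : ℝ) ≤ (ℓ : ℝ) * N0 := by exact_mod_cast hm0M
  have hU' : (U : ℝ) ≤ (ℓ : ℝ) * N0 := by exact_mod_cast hUM
  have hh' : 2 * (h : ℝ) ≤ (ℓ : ℝ) * N0 := by
    have : 2 * h ≤ ℓ * N0 := hm0.trans hm0M
    exact_mod_cast this
  have hM1 : (1 : ℝ) ≤ (ℓ : ℝ) * N0 := by
    have : 1 ≤ ℓ * N0 := by omega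
    exact_mod_cast this
  have hMc : (((ℓ * N0 : ℕ)) : ℝ) = (ℓ : ℝ) * N0 := by push_cast; ring
  have hshort : ∀ (S q : ℕ), 1 ≤ S → S ≤ m0 + ℓ * N0 + 2 * h + 2 * U →
      PhiN K Γ S q ≤ 5 * ((ℓ : ℝ) * N0) * CZ θ := by
    intro S q hS1 hS
    obtain ⟨T, rfl⟩ : ∃ T, S = T + 1 := ⟨S - 1, by omega⟩
    have h1 := short_words hP Γ T q (by omega)
    have h2 : ((T : ℝ) + 1) ≤ 5 * ((ℓ : ℝ) * N0) := by
      have h3 : ((T + 1 : ℕ) : ℝ) ≤ ((m0 + ℓ * N0 + 2 * h + 2 * U : ℕ) : ℝ) := by exact_mod_cast hS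
      push_cast at h3
      linarith
    exact h1.trans (mul_le_mul_of_nonneg_right h2 hCZ0)
  have hprod : ((m0 : ℝ) + (ℓ * N0 : ℕ) + 1) * (m0 + (ℓ * N0 : ℕ) + U + h)
      ≤ 12 * ((ℓ : ℝ) * N0) ^ 2 := by
    rw [hMc]
    have h1 : (m0 : ℝ) + (ℓ : ℝ) * N0 + 1 ≤ 3 * ((ℓ : ℝ) * N0) := by linarith
    have h2 : (m0 : ℝ) + (ℓ : ℝ) * N0 + U + h ≤ 4 * ((ℓ : ℝ) * N0) := by
      have : (0 : ℝ) ≤ h := Nat.cast_nonneg _
      linarith
    calc ((m0 : ℝ) + (ℓ : ℝ) * N0 + 1) * (m0 + (ℓ : ℝ) * N0 + U + h)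
        ≤ (3 * ((ℓ : ℝ) * N0)) * (4 * ((ℓ : ℝ) * N0)) :=
          mul_le_mul h1 h2 (by positivity) (by positivity)
      _ = 12 * ((ℓ : ℝ) * N0) ^ 2 := by ring
  have hexp : Real.exp (- (ε ^ 2 * N0 / (16 * (1 : ℝ) ^ 2)))
      ≤ Real.exp (- (ε ^ 2 * N0 / (16 * CZ θ ^ 2))) := by
    rw [Real.exp_le_exp, neg_le_neg_iff]
    refine div_le_div_of_nonneg_left (by positivity) (by norm_num) ?_
    have : (1 : ℝ) ^ 2 ≤ CZ θ ^ 2 := pow_le_pow_left₀ zero_le_one hCZ1 2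
    linarith
  have hE1 : (Fintype.card V : ℝ) * (2 * (ℓ : ℝ) * Real.exp (- (ε ^ 2 * N0 / (16 * (1 : ℝ) ^ 2))))
      ≤ 2 * ((Fintype.card V : ℝ) * (ℓ : ℝ) * Real.exp (- (ε ^ 2 * N0 / (16 * CZ θ ^ 2)))) := by
    calc (Fintype.card V : ℝ) * (2 * (ℓ : ℝ) * Real.exp (- (ε ^ 2 * N0 / (16 * (1 : ℝ) ^ 2))))
        ≤ (Fintype.card V : ℝ) * (2 * (ℓ : ℝ) * Real.exp (- (ε ^ 2 * N0 / (16 * CZ θ ^ 2)))) := by
          gcongr
      _ = _ := by ring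
  have hEZ : (Fintype.card V : ℝ) * (2 * (ℓ : ℝ) * Real.exp (- (ε ^ 2 * N0 / (16 * CZ θ ^ 2))))
      = 2 * ((Fintype.card V : ℝ) * (ℓ : ℝ) * Real.exp (- (ε ^ 2 * N0 / (16 * CZ θ ^ 2)))) := by
    ring
  -- the core estimates
  have hb1 : 1 ≤ 2 * h := by omega
  have cf1 := fun (N' S' : ℕ) (hS' : m0 + ℓ * N0 + (2 * h + U) ≤ S') =>
    E8_core hP o Γ hΓ (2 * h) U N0 m0 N' hb1 hm0
      (f1 K o (2 * h) g U) (CZ θ) (by linarith) (fun w => f1_nonneg K o (2 * h) g U w)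
      (fun w _ => f1_le hP o (2 * h) g U hUL w) ε hε (by rw [EL_f1]; exact hκ0) (r + 1) S'
      (by rw [hℓe]; exact hS')
  have cf2 := fun (N' S' : ℕ) (hS' : m0 + ℓ * N0 + (2 * h + U) ≤ S') =>
    E8_core hP o Γ hΓ (2 * h) U N0 m0 N' hb1 hm0
      (f2 K o (2 * h) g U) 1 one_pos (fun w => f2_nonneg K o (2 * h) g U w)
      (fun w hw => f2_le_one K o (2 * h) g U hb1 hg w hw) ε hε (by rw [EL_f2]; exact hκ0)
      (r + g + 1) S' (by rw [hℓe]; exact hS')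
  have hEf1 : EL K o ℓ (f1 K o (2 * h) g U) = kap K o (2 * h) g U := by
    have := EL_f1 K o (2 * h) g U
    rwa [hℓe] at this
  have hEf2 : EL K o ℓ (f2 K o (2 * h) g U) = kap K o (2 * h) g U := by
    have := EL_f2 K o (2 * h) g U
    rwa [hℓe] at this
  simp only [hℓe, hEf1, hEZ] at cf1
  simp only [hℓe, hEf2] at cf2
  have hcmp := fun (N' : ℕ) => abs_le.1 (hcomp V K h hP o Γ hΓ hΓA r g m0 (ℓ * N0) U
    (m0 + ℓ * N0 + 2 * h + U) N' (by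
      have : (0 : ℝ) ≤ g := Nat.cast_nonneg _
      linarith) hg hm0 le_rfl (by omega))
  have hcp : C1 * (((m0 : ℝ) + (ℓ * N0 : ℕ) + 1) * (m0 + (ℓ * N0 : ℕ) + U + h))
      ≤ C1 * (12 * ((ℓ : ℝ) * N0) ^ 2) := mul_le_mul_of_nonneg_left hprod hC1.le
  have hS1 : m0 + ℓ * N0 + (2 * h + U) ≤ m0 + ℓ * N0 + 2 * h + U := by omega
  have hS2 : m0 + ℓ * N0 + (2 * h + U) ≤ m0 + ℓ * N0 + 2 * h + U + U := by omega
  have hg0 : (0 : ℝ) ≤ g := Nat.cast_nonneg _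
  have hκM0 : 0 ≤ kap K o (2 * h) g U * ((ℓ : ℝ) * N0) := mul_nonneg hκ0 hm.le
  have hExp0 : 0 ≤ 1 * ((ℓ : ℝ) * N0) := by positivity
  constructor
  · -- insertion
    have k1 := (cf1 N (m0 + ℓ * N0 + 2 * h + U) hS1).1
    have k2 := (cf2 (N + U) (m0 + ℓ * N0 + 2 * h + U) hS1).2
    have k3 := hTG1 V K o Γ (2 * h) g r m0 (ℓ * N0) U (m0 + ℓ * N0 + 2 * h + U) N hm0 le_rfl
    have k4 := hTG2 V K o Γ (2 * h) g r m0 (ℓ * N0) U (m0 + ℓ * N0 + 2 * h + U) N hm0 le_rfl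
    have k5 := (hcmp N).2
    have k6 : (1 * ((ℓ : ℝ) * N0)) * ((Fintype.card V : ℝ) *
        (2 * (ℓ : ℝ) * Real.exp (- (ε ^ 2 * N0 / (16 * (1 : ℝ) ^ 2)))))
        ≤ (CZ θ * ((ℓ : ℝ) * N0)) * (2 * ((Fintype.card V : ℝ) * (ℓ : ℝ) *
          Real.exp (- (ε ^ 2 * N0 / (16 * CZ θ ^ 2))))) := by
      refine mul_le_mul ?_ hE1 (by positivity) (by positivity)
      exact mul_le_mul_of_nonneg_right hCZ1 hm.le
    refine E8_arith (kap K o (2 * h) g U) (CZ θ) C1 ((ℓ : ℝ) * N0) L ε _ (PhiN K Γ N r)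
      (PhiN K Γ (N + U) (r + g)) (PhiN K Γ (m0 + ℓ * N0 + 2 * h + U) r) _ _ _ _ _ _ _ _ hκ0 hκ hCZ1 hm hε
      hE0 (kmL_nonneg o Γ _ _ (fun _ _ _ => ind_nonneg _))
      (hspl (m0 + ℓ * N0 + 2 * h + U) N r)
      ((hsub _ N r).trans (hPm N r (by linarith)))
      (hshort (m0 + ℓ * N0 + 2 * h + U) r (by omega) (by omega))
      k1 (le_of_eq k3.symm) (by linarith) k4 (by linarith) (hsub _ (N + U) (r + g))
      ((hsub _ (N + U) (r + g)).trans (hPm (N + U) (r + g) (by push_cast; linarith))) hC1.le le_rfl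
      hc0 hL0
  · -- deletion
    have k1 := (cf2 N (m0 + ℓ * N0 + 2 * h + U + U) hS2).1
    have k2 := (cf1 N (m0 + ℓ * N0 + 2 * h + U) hS1).2
    have k3 := hTG1 V K o Γ (2 * h) g r m0 (ℓ * N0) U (m0 + ℓ * N0 + 2 * h + U) N hm0 le_rfl
    have k4 := hTG3 V K o Γ (2 * h) g r m0 (ℓ * N0) U (m0 + ℓ * N0 + 2 * h + U) N hm0 le_rfl
    have k5 := (hcmp N).1
    have k6 : (kap K o (2 * h) g U * ((ℓ : ℝ) * N0)) * ((Fintype.card V : ℝ) *
        (2 * (ℓ : ℝ) * Real.exp (- (ε ^ 2 * N0 / (16 * (1 : ℝ) ^ 2)))))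
        ≤ (kap K o (2 * h) g U * ((ℓ : ℝ) * N0)) * (2 * ((Fintype.card V : ℝ) * (ℓ : ℝ) *
          Real.exp (- (ε ^ 2 * N0 / (16 * CZ θ ^ 2))))) := mul_le_mul_of_nonneg_left hE1 hκM0
    refine E8_arith (kap K o (2 * h) g U) (CZ θ) C1 ((ℓ : ℝ) * N0) L ε _ (PhiN K Γ N (r + g))
      (PhiN K Γ N r) (PhiN K Γ (m0 + ℓ * N0 + 2 * h + U + U) (r + g)) _ _ _ _ _ _ _ _ hκ0 hκ hCZ1 hm hε
      hE0 (kmL_nonneg o Γ _ _ (fun _ _ _ => ind_nonneg _))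
      (hspl (m0 + ℓ * N0 + 2 * h + U + U) N (r + g))
      ((hsub _ N (r + g)).trans (hPm N (r + g) (by push_cast; linarith)))
      (hshort (m0 + ℓ * N0 + 2 * h + U + U) (r + g) (by omega) (by omega))
      (k1.trans (by linarith)) k4 (by linarith) (le_of_eq k3) k2 (hsub _ N r)
      ((hsub _ N r).trans (hPm N r (by linarith))) hC1.le le_rfl
      hc0 hL0

end

end Pool.Agent.helper20.HP
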